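import Pool.Agent.H.MP_53e59f_lc.ST.Defs

/-!
# Markov's inequality

`∑ y ∈ W L, Rf a y = ∑ t ∈ Icc 1 L, #{y ∈ W L : y.take t ∈ Pm a t} = ∑ t ∈ Icc 1 L, (Pm a t).ncard * s ^ (L - t)` (double counting; `y ↦ (y.take t, y.drop t)`),
and the left side is at least `A * (Cf a L A).ncard`.
-/

namespace Pool.Agent.ST

open Pool.Agent.SN

private theorem Markov_card {q : ℕ → Prop} (i1 i2 : DecidablePred q) (T : Finset ℕ) :
    (@Finset.filter ℕ q i1 T).card = (@Finset.filter ℕ q i2 T).card := by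
  have h : i1 = i2 := Subsingleton.elim _ _
  rw [h]

theorem markov {s : ℕ} (a : List (Fin s)) (L A : ℕ) :
    A * (Cf a L A).ncard ≤ ∑ t ∈ Finset.Icc 1 L, (Pm a t).ncard * s ^ (L - t) := by
  classical
  obtain ⟨F, hF⟩ : ∃ F : Finset (List (Fin s)), F = (W_fin (Fin s) L).toFinset := ⟨_, rfl⟩
  have hmem : ∀ y, y ∈ F ↔ y.length = L := by
    intro y
    rw [hF, Set.Finite.mem_toFinset]
    exact Iff.rfl
  obtain ⟨p, hp⟩ : ∃ p : ℕ → List (Fin s) → Prop, p = fun t y => (a.take t).Perm (y.take t) :=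
    ⟨_, rfl⟩
  have hR : ∀ y, Rf a y = ((Finset.Icc 1 y.length).filter fun t => p t y).card := by
    intro y
    unfold Rf
    rw [hp]
    exact Markov_card _ _ _
  have h1 : (Cf a L A).ncard = (F.filter fun y => A ≤ Rf a y).card := by
    rw [← Set.ncard_coe_finset]
    congr 1
    ext y
    rw [Finset.mem_coe, Finset.mem_filter, hmem]
    exact Iff.rfl
  have h2 : A * (F.filter fun y => A ≤ Rf a y).card ≤ ∑ y ∈ F, Rf a y := by
    calc A * (F.filter fun y => A ≤ Rf a y).card = ∑ _y ∈ F.filter fun y => A ≤ Rf a y, A := by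
          rw [Finset.sum_const, smul_eq_mul, mul_comm]
      _ ≤ ∑ y ∈ F.filter fun y => A ≤ Rf a y, Rf a y :=
          Finset.sum_le_sum fun y hy => (Finset.mem_filter.1 hy).2
      _ ≤ ∑ y ∈ F, Rf a y := Finset.sum_le_sum_of_subset (Finset.filter_subset _ _)
  have h3 : ∑ y ∈ F, Rf a y = ∑ t ∈ Finset.Icc 1 L, (F.filter fun y => p t y).card := by
    have e : ∀ y ∈ F, Rf a y = ∑ t ∈ Finset.Icc 1 L, if p t y then 1 else 0 := by
      intro y hy
      rw [hR, (hmem y).1 hy, Finset.card_filter]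
    rw [Finset.sum_congr rfl e, Finset.sum_comm]
    exact Finset.sum_congr rfl fun t _ => by rw [Finset.card_filter]
  rw [h1]
  refine h2.trans (h3.trans_le (Finset.sum_le_sum fun t ht => ?_))
  rw [Finset.mem_Icc] at ht
  have h4 : ((F.filter fun y => p t y : Finset (List (Fin s))) : Set (List (Fin s))) ⊆
      Set.image2 (fun b c => b ++ c) (Pm a t) (W (Fin s) (L - t)) := by
    intro y hy
    rw [Finset.mem_coe, Finset.mem_filter, hmem, hp] at hy
    obtain ⟨hy1, hy2⟩ := hy
    refine ⟨y.take t, ⟨?_, hy2⟩, y.drop t, ?_, List.take_append_drop t y⟩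
    · rw [List.length_take, hy1]
      exact min_eq_left ht.2
    · show (y.drop t).length = L - t
      rw [List.length_drop, hy1]
  have h5 := Set.ncard_le_ncard h4 ((Pm_fin a t).image2 _ (W_fin (Fin s) (L - t)))
  rw [Set.ncard_coe_finset] at h5
  refine h5.trans ?_
  rw [← Set.image_prod]
  refine (Set.ncard_image_le ((Pm_fin a t).prod (W_fin (Fin s) (L - t)))).trans ?_
  rw [Set.ncard_prod, W_card, Nat.card_eq_fintype_card, Fintype.card_fin]

end Pool.Agent.ST
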