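import Pool.Agent.H.MP_53e59f_lc.ST.Defs

/-!
# Restart at the return number A

`Cf_sub`: let `y ∈ Cf a L (A + K)`, `1 ≤ A`, and let `t` be the `A`-th smallest return. Then `y.take t ∈ Hf a t A` and the later returns `t'` give the returns `t' - t` of
`y.drop t` against `a.drop t` (cancellation, see `First_split` in SN/First.lean). (Existence of `t`: the least `t` with at least `A` returns in `Icc 1 t`,
`Nat.find`; the number of returns in `Icc 1 t` grows by at most one.)
`Hf_sum`: the sets `image2 (++) (Hf a t A) (W (L - t))`, `1 ≤ t ≤ L`, are pairwise disjoint (`t` is the `A`-th return of the word) and contained in `Cf a L A`.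
-/

namespace Pool.Agent.ST

open Pool.Agent.SN

private theorem Rest_split {α : Type} (a y : List α) {t t' : ℕ}
    (h : (a.take t).Perm (y.take t)) (h' : (a.take t').Perm (y.take t')) (ht : t ≤ t') :
    ((a.drop t).take (t' - t)).Perm ((y.drop t).take (t' - t)) := by
  have e1 : a.take t' = a.take t ++ (a.drop t).take (t' - t) := by
    rw [← List.take_add, Nat.add_sub_cancel' ht]
  have e2 : y.take t' = y.take t ++ (y.drop t).take (t' - t) := by
    rw [← List.take_add, Nat.add_sub_cancel' ht]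
  rw [e1, e2] at h'
  have h2 : (y.take t ++ (y.drop t).take (t' - t)).Perm
      (a.take t ++ (y.drop t).take (t' - t)) := h.symm.append_right _
  exact (List.perm_append_left_iff _).1 (h'.trans h2)

private theorem Rest_step (S : Finset ℕ) (n : ℕ) :
    (S.filter fun q => q ≤ n + 1).card =
      (S.filter fun q => q ≤ n).card + if n + 1 ∈ S then 1 else 0 := by
  by_cases h : n + 1 ∈ S
  · rw [if_pos h]
    have e : (S.filter fun q => q ≤ n + 1) = insert (n + 1) (S.filter fun q => q ≤ n) := by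
      ext q
      rw [Finset.mem_insert, Finset.mem_filter, Finset.mem_filter]
      constructor
      · rintro ⟨h1, h2⟩
        by_cases h3 : q = n + 1
        · exact Or.inl h3
        · exact Or.inr ⟨h1, by omega⟩
      · rintro (h1 | ⟨h1, h2⟩)
        · rw [h1]
          exact ⟨h, le_refl _⟩
        · exact ⟨h1, by omega⟩
    rw [e, Finset.card_insert_of_notMem]
    rw [Finset.mem_filter]
    omega
  · rw [if_neg h, Nat.add_zero]
    congr 1
    ext q
    rw [Finset.mem_filter, Finset.mem_filter]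
    constructor
    · rintro ⟨h1, h2⟩
      refine ⟨h1, ?_⟩
      have h3 : q ≠ n + 1 := fun h4 => h (h4 ▸ h1)
      omega
    · rintro ⟨h1, h2⟩
      exact ⟨h1, by omega⟩

private theorem Rest_Rf {s : ℕ} (a y : List (Fin s)) : Rf a y =
    ((Finset.Icc 1 y.length).filter fun t => (a.take t).Perm (y.take t)).card := by
  unfold Rf
  congr!

theorem Cf_sub {s : ℕ} (a : List (Fin s)) (L K : ℕ) {A : ℕ} (hA : 1 ≤ A) :
    Cf a L (A + K) ⊆ ⋃ t ∈ Finset.Icc 1 L,
      Set.image2 (fun y z => y ++ z) (Hf a t A) (Cf (a.drop t) (L - t) K) := by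
  classical
  rintro y ⟨hL, hK⟩
  rw [Rest_Rf, hL] at hK
  obtain ⟨S, hS⟩ : ∃ S : Finset ℕ,
      S = (Finset.Icc 1 L).filter fun t => (a.take t).Perm (y.take t) := ⟨_, rfl⟩
  have hK' : A + K ≤ S.card := by
    rw [hS]
    exact hK
  have hmem : ∀ t, t ∈ S ↔ (1 ≤ t ∧ t ≤ L) ∧ (a.take t).Perm (y.take t) := by
    intro t
    rw [hS, Finset.mem_filter, Finset.mem_Icc]
  have hf0 : (S.filter fun q => q ≤ 0).card = 0 := by
    rw [Finset.card_eq_zero, Finset.filter_eq_empty_iff]
    intro q hq
    have := ((hmem q).1 hq).1.1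
    omega
  have hfL : (S.filter fun q => q ≤ L).card = S.card := by
    congr 1
    rw [Finset.filter_eq_self]
    intro q hq
    exact ((hmem q).1 hq).1.2
  have hex : ∃ n, A ≤ (S.filter fun q => q ≤ n).card := ⟨L, by omega⟩
  obtain ⟨t, ht, hmin⟩ : ∃ t, A ≤ (S.filter fun q => q ≤ t).card ∧
      ∀ n < t, (S.filter fun q => q ≤ n).card < A :=
    ⟨Nat.find hex, Nat.find_spec hex, fun n hn => not_le.1 (Nat.find_min hex hn)⟩
  obtain ⟨t0, rfl⟩ : ∃ t0, t = t0 + 1 := by
    refine ⟨t - 1, ?_⟩
    have : t ≠ 0 := by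
      rintro rfl
      omega
    omega
  have hst := Rest_step S t0
  have hlt := hmin t0 (Nat.lt_succ_self t0)
  have htS : t0 + 1 ∈ S := by
    by_contra hc
    rw [if_neg hc] at hst
    omega
  rw [if_pos htS] at hst
  have hcA : (S.filter fun q => q ≤ t0 + 1).card = A := by omega
  obtain ⟨t, htt⟩ : ∃ t, t = t0 + 1 := ⟨_, rfl⟩
  rw [← htt] at htS hcA
  obtain ⟨⟨h1, h2⟩, h3⟩ := (hmem t).1 htS
  rw [Set.mem_iUnion₂]
  have hlen : (y.take t).length = t := by
    rw [List.length_take, hL]
    exact min_eq_left h2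
  refine ⟨t, Finset.mem_Icc.2 ⟨h1, h2⟩, y.take t, ⟨hlen, h3, ?_⟩, y.drop t, ⟨?_, ?_⟩, ?_⟩
  · rw [← hcA, Rest_Rf, hlen]
    congr 1
    ext q
    rw [Finset.mem_filter, Finset.mem_filter, Finset.mem_Icc, hmem]
    constructor
    · rintro ⟨⟨h4, h5⟩, h6⟩
      rw [List.take_take, min_eq_left h5] at h6
      exact ⟨⟨⟨h4, h5.trans h2⟩, h6⟩, h5⟩
    · rintro ⟨⟨⟨h4, h5⟩, h6⟩, h7⟩
      refine ⟨⟨h4, h7⟩, ?_⟩
      rw [List.take_take, min_eq_left h7]
      exact h6
  · rw [List.length_drop, hL]
  · have hc : (S \ (S.filter fun q => q ≤ t)).card ≤ Rf (a.drop t) (y.drop t) := by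
      rw [Rest_Rf]
      refine Finset.card_le_card_of_injOn (fun t' => t' - t) ?_ ?_
      · intro t' ht'
        rw [Finset.mem_coe, Finset.mem_sdiff, Finset.mem_filter, not_and] at ht'
        have h4 := ht'.2 ht'.1
        obtain ⟨⟨h5, h6⟩, h7⟩ := (hmem t').1 ht'.1
        rw [Finset.mem_coe, Finset.mem_filter, Finset.mem_Icc, List.length_drop, hL]
        refine ⟨⟨?_, ?_⟩, Rest_split a y h3 h7 (by omega)⟩
        · show 1 ≤ t' - t
          omega
        · show t' - t ≤ L - t
          omega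
      · intro x hx z hz hxz
        rw [Finset.mem_coe, Finset.mem_sdiff, Finset.mem_filter, not_and] at hx hz
        have h4 := hx.2 hx.1
        have h5 := hz.2 hz.1
        simp only at hxz
        omega
    rw [Finset.card_sdiff_of_subset (Finset.filter_subset _ _), hcA] at hc
    omega
  · exact List.take_append_drop t y

end Pool.Agent.ST
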