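import Pool.Agent.H.MP_53e59f_lc.ST.Defs

/-!
# Words with at least A returns, counted by the return number A

The sets `image2 (++) (Hf a t A) (W (L - t))`, `1 ≤ t ≤ L`, are pairwise disjoint (for `t < t'`: the word `y` has exactly `A` returns up to `t` and `t'` is one more
return, so it has at least `A + 1` returns up to `t'`) and contained in `Cf a L A`; `W_card`. See SQ/Renew.lean for a similar proof.
-/

namespace Pool.Agent.ST

open Pool.Agent.SN

private theorem Rest2_G (p : ℕ → Prop) (i : DecidablePred p) (n : ℕ) : ∃ F : Finset ℕ,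
    (∀ r, r ∈ F ↔ (1 ≤ r ∧ r ≤ n) ∧ p r) ∧
      F.card = (@Finset.filter ℕ p i (Finset.Icc 1 n)).card :=
  ⟨@Finset.filter ℕ p i (Finset.Icc 1 n), fun r => by rw [Finset.mem_filter, Finset.mem_Icc], rfl⟩

private theorem Rest2_F {s : ℕ} (a y : List (Fin s)) : ∃ F : Finset ℕ,
    (∀ r, r ∈ F ↔ (1 ≤ r ∧ r ≤ y.length) ∧ (a.take r).Perm (y.take r)) ∧ F.card = Rf a y := by
  unfold Rf
  exact Rest2_G (fun r => (a.take r).Perm (y.take r)) _ y.length

private theorem Rest2_mono {s : ℕ} (a x y : List (Fin s)) : Rf a x ≤ Rf a (x ++ y) := by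
  obtain ⟨F, hF, hFc⟩ := Rest2_F a x
  obtain ⟨G, hG, hGc⟩ := Rest2_F a (x ++ y)
  rw [← hFc, ← hGc]
  apply Finset.card_le_card
  intro r hr
  rw [hF] at hr
  rw [hG, List.length_append, List.take_append_of_le_length hr.1.2]
  exact ⟨⟨hr.1.1, by omega⟩, hr.2⟩

private theorem Rest2_aux {s t t' A : ℕ} {a x w x' w' : List (Fin s)} (hx : x ∈ Hf a t A)
    (hx' : x' ∈ Hf a t' A) (he : x ++ w = x' ++ w') (ht : 1 ≤ t) (htt : t < t') : False := by
  have e1 : x = x'.take t := by
    have h1 : (x ++ w).take t = x := by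
      rw [← hx.1]
      exact List.take_left
    have h2 : (x' ++ w').take t = x'.take t :=
      List.take_append_of_le_length (by rw [hx'.1]; omega)
    rw [he, h2] at h1
    exact h1.symm
  obtain ⟨F, hF, hFc⟩ := Rest2_F a x
  obtain ⟨G, hG, hGc⟩ := Rest2_F a x'
  have hnot : t' ∉ F := by
    intro hm
    have h1 := ((hF t').1 hm).1.2
    rw [hx.1] at h1
    omega
  have h2 : (insert t' F).card ≤ G.card := by
    apply Finset.card_le_card
    intro r hr
    rw [hG]
    rcases Finset.mem_insert.1 hr with rfl | hr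
    · refine ⟨⟨by omega, hx'.1.ge⟩, ?_⟩
      have h3 : x'.take r = x' := by
        rw [← hx'.1]
        exact List.take_length
      rw [h3]
      exact hx'.2.1
    · rw [hF, hx.1] at hr
      refine ⟨⟨hr.1.1, by rw [hx'.1]; omega⟩, ?_⟩
      have h3 : x.take r = x'.take r := by rw [e1, List.take_take, min_eq_left hr.1.2]
      rw [← h3]
      exact hr.2
  rw [Finset.card_insert_of_notMem hnot, hFc, hGc, hx.2.2, hx'.2.2] at h2
  omega

theorem Hf_sum {s : ℕ} (a : List (Fin s)) (L : ℕ) {A : ℕ} (hA : 1 ≤ A) :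
    ∑ t ∈ Finset.Icc 1 L, (Hf a t A).ncard * s ^ (L - t) ≤ (Cf a L A).ncard := by
  classical
  have hTf : ∀ t, (Set.image2 (fun x y => x ++ y) (Hf a t A) (W (Fin s) (L - t))).Finite :=
    fun t => (Hf_fin a t A).image2 _ (W_fin _ _)
  have hcard : ∀ t, (Set.image2 (fun x y => x ++ y) (Hf a t A) (W (Fin s) (L - t))).ncard =
      (Hf a t A).ncard * s ^ (L - t) := by
    intro t
    have hW : (W (Fin s) (L - t)).ncard = s ^ (L - t) := by
      rw [W_card, Nat.card_eq_fintype_card, Fintype.card_fin]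
    rw [← hW, ← Set.image_prod, Set.InjOn.ncard_image, Set.ncard_prod]
    rintro ⟨x, y⟩ ⟨hx, hy⟩ ⟨x', y'⟩ ⟨hx', hy'⟩ h
    have h3 := List.append_inj h (hx.1.trans hx'.1.symm)
    exact Prod.ext h3.1 h3.2
  calc ∑ t ∈ Finset.Icc 1 L, (Hf a t A).ncard * s ^ (L - t)
      = ∑ t ∈ Finset.Icc 1 L, (hTf t).toFinset.card := by
        refine Finset.sum_congr rfl fun t _ => ?_
        rw [← hcard t, Set.ncard_eq_toFinset_card _ (hTf t)]
    _ = ((Finset.Icc 1 L).biUnion fun t => (hTf t).toFinset).card := by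
        rw [Finset.card_biUnion]
        intro j hj j' hj' hne
        rw [Function.onFun, Finset.disjoint_left]
        intro z hz hz'
        rw [Set.Finite.mem_toFinset] at hz hz'
        obtain ⟨x, hx, y, hy, hab⟩ := hz
        obtain ⟨x', hx', y', hy', hab'⟩ := hz'
        have h4 : x ++ y = x' ++ y' := hab.trans hab'.symm
        rcases lt_or_gt_of_ne hne with h | h
        · exact Rest2_aux hx hx' h4 (Finset.mem_Icc.1 (Finset.mem_coe.1 hj)).1 h
        · exact Rest2_aux hx' hx h4.symm (Finset.mem_Icc.1 (Finset.mem_coe.1 hj')).1 h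
    _ ≤ (Cf_fin a L A).toFinset.card := by
        refine Finset.card_le_card fun z hz => ?_
        obtain ⟨j, hj, hz⟩ := Finset.mem_biUnion.1 hz
        rw [Set.Finite.mem_toFinset] at hz ⊢
        obtain ⟨x, hx, y, hy, rfl⟩ := hz
        have hj2 := (Finset.mem_Icc.1 hj).2
        have hy1 : y.length = L - j := hy
        refine ⟨?_, ?_⟩
        · change (x ++ y).length = L
          rw [List.length_append, hx.1, hy1]
          omega
        · change A ≤ Rf a (x ++ y)
          rw [← hx.2.2]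
          exact Rest2_mono a x y
    _ = (Cf a L A).ncard := (Set.ncard_eq_toFinset_card _ _).symm

end Pool.Agent.ST
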