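import Pool.Agent.H.MP_53e59f_lc.ST.Sum
import Pool.Agent.H.MP_53e59f_lc.ST.Markov
import Pool.Agent.H.MP_53e59f_lc.ST.Rest
import Pool.Agent.H.MP_53e59f_lc.ST.Rest2

/-!
# The number of words with many returns

`A = 2 B + 1` with `B` of `Pm_sum`: `markov` gives `2 * (Cf a L A).ncard ≤ s ^ L`. Induction on `K` for all `a`, `L`: `K = 0`: `Cf ⊆ W`. Step: `Cf a L (A (K + 1)) = Cf a L (A + A K)`,
`Cf_sub`: `(Cf a L (A (K+1))).ncard ≤ ∑ t, (Hf a t A).ncard * (Cf (a.drop t) (L - t) (A K)).ncard`, so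
`2 ^ K * .. ≤ ∑ t, (Hf a t A).ncard * s ^ (L - t) ≤ (Cf a L A).ncard` (`Hf_sum`). See SN/Sum.lean for the union bound.
-/

namespace Pool.Agent.ST

open Pool.Agent.SN

private theorem Card_im {α β γ : Type} (f : α → β → γ) {A : Set α} {B : Set β} (hA : A.Finite)
    (hB : B.Finite) : (Set.image2 f A B).ncard ≤ A.ncard * B.ncard := by
  rw [← Set.image_prod, ← Set.ncard_prod]
  exact Set.ncard_image_le (hA.prod hB)

private theorem Card_un {γ : Type} (T : Finset ℕ) (A : ℕ → Set γ) (hA : ∀ t, (A t).Finite) :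
    (⋃ t ∈ T, A t).ncard ≤ ∑ t ∈ T, (A t).ncard := by
  classical
  induction T using Finset.induction_on with
  | empty => simp
  | insert t T ht ih =>
    rw [Finset.sum_insert ht, Finset.set_biUnion_insert]
    exact (Set.ncard_union_le _ _).trans (Nat.add_le_add le_rfl ih)

theorem Cf_card : ∃ A : ℕ, ∀ s : ℕ, 4 ≤ s → ∀ (a : List (Fin s)) (K L : ℕ),
    2 ^ K * (Cf a L (A * K)).ncard ≤ s ^ L := by
  obtain ⟨B, hB⟩ := Pm_sum
  refine ⟨2 * B + 1, fun s hs a K => ?_⟩
  have half : ∀ (a : List (Fin s)) (L : ℕ), 2 * (Cf a L (2 * B + 1)).ncard ≤ s ^ L := by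
    intro a L
    have h1 := (markov a L (2 * B + 1)).trans (hB s hs a L)
    have h2 : (2 * B + 1) * (2 * (Cf a L (2 * B + 1)).ncard) ≤ (2 * B + 1) * s ^ L := by
      calc (2 * B + 1) * (2 * (Cf a L (2 * B + 1)).ncard) =
            2 * ((2 * B + 1) * (Cf a L (2 * B + 1)).ncard) := by ring
        _ ≤ 2 * (B * s ^ L) := Nat.mul_le_mul_left 2 h1
        _ = 2 * B * s ^ L := by ring
        _ ≤ (2 * B + 1) * s ^ L := Nat.mul_le_mul_right _ (Nat.le_succ _)
    exact Nat.le_of_mul_le_mul_left h2 (Nat.succ_pos _)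
  induction K generalizing a with
  | zero =>
    intro L
    rw [pow_zero, one_mul]
    have h1 : (Cf a L ((2 * B + 1) * 0)).ncard ≤ (W (Fin s) L).ncard :=
      Set.ncard_le_ncard (fun _ h => h.1) (W_fin (Fin s) L)
    refine h1.trans (le_of_eq ?_)
    rw [W_card, Nat.card_eq_fintype_card, Fintype.card_fin]
  | succ K ih =>
    intro L
    have e0 : (2 * B + 1) * (K + 1) = (2 * B + 1) + (2 * B + 1) * K := by ring
    rw [e0]
    have h1 : (Cf a L ((2 * B + 1) + (2 * B + 1) * K)).ncard ≤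
        ∑ t ∈ Finset.Icc 1 L,
          (Hf a t (2 * B + 1)).ncard * (Cf (a.drop t) (L - t) ((2 * B + 1) * K)).ncard := by
      refine (Set.ncard_le_ncard (Cf_sub a L ((2 * B + 1) * K) (Nat.succ_pos _)) ?_).trans ?_
      · refine Set.Finite.biUnion (Finset.finite_toSet _) fun t _ => ?_
        exact (Hf_fin a t _).image2 _ (Cf_fin _ (L - t) _)
      · refine (Card_un _ _ fun t => (Hf_fin a t _).image2 _ (Cf_fin _ (L - t) _)).trans ?_
        exact Finset.sum_le_sum fun t _ => Card_im _ (Hf_fin a t _) (Cf_fin _ (L - t) _)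
    calc 2 ^ (K + 1) * (Cf a L ((2 * B + 1) + (2 * B + 1) * K)).ncard ≤
          2 ^ (K + 1) * ∑ t ∈ Finset.Icc 1 L,
            (Hf a t (2 * B + 1)).ncard * (Cf (a.drop t) (L - t) ((2 * B + 1) * K)).ncard :=
          Nat.mul_le_mul_left _ h1
      _ = 2 * ∑ t ∈ Finset.Icc 1 L, (Hf a t (2 * B + 1)).ncard *
            (2 ^ K * (Cf (a.drop t) (L - t) ((2 * B + 1) * K)).ncard) := by
          rw [Finset.mul_sum, Finset.mul_sum]
          exact Finset.sum_congr rfl fun t _ => by ring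
      _ ≤ 2 * ∑ t ∈ Finset.Icc 1 L, (Hf a t (2 * B + 1)).ncard * s ^ (L - t) :=
          Nat.mul_le_mul_left _ (Finset.sum_le_sum fun t _ =>
            Nat.mul_le_mul_left _ (ih (a.drop t) (L - t)))
      _ ≤ 2 * (Cf a L (2 * B + 1)).ncard :=
          Nat.mul_le_mul_left _ (Hf_sum a L (Nat.succ_pos _))
      _ ≤ s ^ L := half a L

end Pool.Agent.ST
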