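import Pool.Agent.H.MP_53e59f_lc.ST.Win

/-!
# The number of bad words v for a fixed u

`one_posf`: `v ↦ ((v.take j).reverse, v.drop j)` is injective and maps the set into `Cf (u.drop i) j K ×ˢ W (Fin s) (m - j)`; `W_card`. `BadU_card`: union bound over
`i ≤ |u|`, `j ≤ m` with `exists_winf` (black box), as in SN/Cov2.lean.
-/

namespace Pool.Agent.ST

open Pool.Agent.SN

theorem one_posf {s P K : ℕ} (hC : ∀ (a : List (Fin s)) (L : ℕ), P * (Cf a L K).ncard ≤ s ^ L)
    (u : List (Fin s)) {m i j : ℕ} (hj : j ≤ m) :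
    P * {v : List (Fin s) | v.length = m ∧ K ≤ Rf (u.drop i) (v.take j).reverse}.ncard ≤ s ^ m := by
  have hfin : (Cf (u.drop i) j K ×ˢ W (Fin s) (m - j)).Finite := (Cf_fin _ _ _).prod (W_fin _ _)
  have hle : {v : List (Fin s) | v.length = m ∧ K ≤ Rf (u.drop i) (v.take j).reverse}.ncard ≤
      (Cf (u.drop i) j K ×ˢ W (Fin s) (m - j)).ncard := by
    refine Set.ncard_le_ncard_of_injOn (fun v => ((v.take j).reverse, v.drop j)) ?_ ?_ hfin
    · rintro v ⟨h1, h2⟩
      refine ⟨⟨?_, h2⟩, ?_⟩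
      · change (v.take j).reverse.length = j
        rw [List.length_reverse, List.length_take, h1, min_eq_left hj]
      · change (v.drop j).length = m - j
        rw [List.length_drop, h1]
    · rintro v ⟨-, -⟩ v' ⟨-, -⟩ h
      have h1 := (Prod.mk.injEq _ _ _ _).mp h
      rw [← List.take_append_drop j v, ← List.take_append_drop j v', h1.2,
        List.reverse_injective h1.1]
  have hexp : s ^ j * s ^ (m - j) = s ^ m := by
    rw [← pow_add]
    congr 1
    omega
  calc P * {v : List (Fin s) | v.length = m ∧ K ≤ Rf (u.drop i) (v.take j).reverse}.ncard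
      ≤ P * (Cf (u.drop i) j K ×ˢ W (Fin s) (m - j)).ncard := Nat.mul_le_mul_left _ hle
    _ = P * (Cf (u.drop i) j K).ncard * s ^ (m - j) := by
      rw [Set.ncard_prod, W_card, Nat.card_eq_fintype_card, Fintype.card_fin, mul_assoc]
    _ ≤ s ^ j * s ^ (m - j) := Nat.mul_le_mul_right _ (hC _ _)
    _ = s ^ m := hexp

theorem BadU_card {s P K : ℕ} (hC : ∀ (a : List (Fin s)) (L : ℕ), P * (Cf a L K).ncard ≤ s ^ L)
    (u : List (Fin s)) (m : ℕ) :
    P * (BadU u m K).ncard ≤ (u.length + 1) * (m + 1) * s ^ m := by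
  have hfin : ∀ q : ℕ × ℕ, {v : List (Fin s) | v.length = m ∧
      K ≤ Rf (u.drop q.1) (v.take q.2).reverse}.Finite := fun q =>
    (W_fin (Fin s) m).subset fun _ h => h.1
  have hsub : BadU u m K ⊆ ⋃ q ∈ Finset.range (u.length + 1) ×ˢ Finset.range (m + 1),
      {v : List (Fin s) | v.length = m ∧ K ≤ Rf (u.drop q.1) (v.take q.2).reverse} := by
    rintro v ⟨h1, i, j, h3⟩
    obtain ⟨i0, j0, h4, h5, h6⟩ := exists_winf h3
    refine Set.mem_biUnion (x := (i0, j0)) ?_ ⟨h1, h6⟩
    refine Finset.mem_coe.2 (Finset.mem_product.2 ⟨Finset.mem_range.2 ?_, Finset.mem_range.2 ?_⟩)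
    · show i0 < u.length + 1
      omega
    · show j0 < m + 1
      omega
  have hfinU : (⋃ q ∈ Finset.range (u.length + 1) ×ˢ Finset.range (m + 1),
      {v : List (Fin s) | v.length = m ∧ K ≤ Rf (u.drop q.1) (v.take q.2).reverse}).Finite :=
    (Finset.finite_toSet _).biUnion fun q _ => hfin q
  have h1 : (BadU u m K).ncard ≤ ∑ q ∈ Finset.range (u.length + 1) ×ˢ Finset.range (m + 1),
      {v : List (Fin s) | v.length = m ∧ K ≤ Rf (u.drop q.1) (v.take q.2).reverse}.ncard :=
    (Set.ncard_le_ncard hsub hfinU).trans (Finset.set_ncard_biUnion_le _ _)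
  calc P * (BadU u m K).ncard ≤ P * ∑ q ∈ Finset.range (u.length + 1) ×ˢ Finset.range (m + 1),
      {v : List (Fin s) | v.length = m ∧ K ≤ Rf (u.drop q.1) (v.take q.2).reverse}.ncard :=
        Nat.mul_le_mul_left _ h1
    _ = ∑ q ∈ Finset.range (u.length + 1) ×ˢ Finset.range (m + 1),
      P * {v : List (Fin s) | v.length = m ∧ K ≤ Rf (u.drop q.1) (v.take q.2).reverse}.ncard :=
        Finset.mul_sum _ _ _
    _ ≤ ∑ q ∈ Finset.range (u.length + 1) ×ˢ Finset.range (m + 1), s ^ m := by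
      refine Finset.sum_le_sum fun q hq => ?_
      obtain ⟨-, h3⟩ := Finset.mem_product.1 hq
      rw [Finset.mem_range] at h3
      exact one_posf hC u (Nat.le_of_lt_succ h3)
    _ = (u.length + 1) * (m + 1) * s ^ m := by
      rw [Finset.sum_const, Finset.card_product, Finset.card_range, Finset.card_range,
        smul_eq_mul]

end Pool.Agent.ST
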