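import Pool.Agent.H.MP_53e59f_lc.SN.Win2
import Pool.Agent.H.MP_53e59f_lc.SN.First

/-!
# Returns against a fixed word
-/

namespace Pool.Agent.ST

open Pool.Agent.SN Pool.Agent.SM

open Classical in
/-- The number of `t` with `1 ≤ t ≤ |y|` such that the first `t` letters of `a` and of `y` are permutations of each other. -/
noncomputable def Rf {α : Type} (a y : List α) : ℕ :=
  ((Finset.Icc 1 y.length).filter fun t => (a.take t).Perm (y.take t)).card

/-- The words of length `L` with at least `K` returns against `a`. -/
def Cf {s : ℕ} (a : List (Fin s)) (L K : ℕ) : Set (List (Fin s)) := {y | y.length = L ∧ K ≤ Rf a y}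

/-- The words of length `t` which are permutations of the first `t` letters of `a`. -/
def Pm {s : ℕ} (a : List (Fin s)) (t : ℕ) : Set (List (Fin s)) := {y | y.length = t ∧ (a.take t).Perm y}

/-- The words of length `t` with exactly `A` returns against `a`, the last one at the end. -/
def Hf {s : ℕ} (a : List (Fin s)) (t A : ℕ) : Set (List (Fin s)) :=
  {y | y.length = t ∧ (a.take t).Perm y ∧ Rf a y = A}

/-- The words `v` of length `m` for which some joint content is attained more than `K` times. -/
def BadU {s : ℕ} (u : List (Fin s)) (m K : ℕ) : Set (List (Fin s)) :=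
  {v | v.length = m ∧ ∃ i j, K + 1 ≤ (Same u v i j).ncard}

theorem Cf_fin {s : ℕ} (a : List (Fin s)) (L K : ℕ) : (Cf a L K).Finite :=
  (W_fin (Fin s) L).subset fun _ h => h.1

theorem Pm_fin {s : ℕ} (a : List (Fin s)) (t : ℕ) : (Pm a t).Finite :=
  (W_fin (Fin s) t).subset fun _ h => h.1

theorem Hf_fin {s : ℕ} (a : List (Fin s)) (t A : ℕ) : (Hf a t A).Finite :=
  (W_fin (Fin s) t).subset fun _ h => h.1

theorem BadU_fin {s : ℕ} (u : List (Fin s)) (m K : ℕ) : (BadU u m K).Finite :=
  (W_fin (Fin s) m).subset fun _ h => h.1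

end Pool.Agent.ST
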