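import Pool.Agent.H.MP_53e59f_lc.ST.Defs

/-!
# Permutations of a word over two parts of the alphabet

See SO/Split.lean for the similar proof: a word `y` over `Fin (g + e)` is determined by its pattern (which letters are `< g`), the
subword of the letters `< g` and the subword of the others. If `y` is a permutation of `a.take t` (with `t` letters) then the
number `j` of letters `< g` of `y` is the one of `a.take t`, and the two subwords are permutations of the corresponding subwords `a1`, `a2` of
`a.take t` (as words over `Fin g`, `Fin e`). If `a` has less than `t` letters then `Pm a t` is empty.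
-/

namespace Pool.Agent.ST

open Pool.Agent.SN

private def Split_mrg {β γ : Type} : List Bool → List β → List γ → List (β ⊕ γ)
  | [], _, _ => []
  | true :: p, a :: u, v => Sum.inl a :: Split_mrg p u v
  | false :: p, u, b :: v => Sum.inr b :: Split_mrg p u v
  | true :: _, [], _ => []
  | false :: _, _, [] => []

private theorem Split_r {β γ : Type} (a : β) (w : List (β ⊕ γ)) :
    (Sum.inl a :: w).filterMap Sum.getRight? = w.filterMap Sum.getRight? :=
  List.filterMap_cons_none rfl

private theorem Split_l {β γ : Type} (a : γ) (w : List (β ⊕ γ)) :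
    (Sum.inr a :: w).filterMap Sum.getLeft? = w.filterMap Sum.getLeft? :=
  List.filterMap_cons_none rfl

private theorem Split_mrg_eq {β γ : Type} (w : List (β ⊕ γ)) :
    Split_mrg (w.map Sum.isLeft) (w.filterMap Sum.getLeft?) (w.filterMap Sum.getRight?) = w := by
  induction w with
  | nil => rfl
  | cons a w ih =>
    cases a with
    | inl a =>
      rw [Split_r]
      simp [Split_mrg, ih]
    | inr a =>
      rw [Split_l]
      simp [Split_mrg, ih]

private theorem Split_len {β γ : Type} (w : List (β ⊕ γ)) :
    (w.filterMap Sum.getLeft?).length + (w.filterMap Sum.getRight?).length = w.length := by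
  induction w with
  | nil => rfl
  | cons a w ih =>
    cases a with
    | inl a =>
      rw [Split_r]
      simp
      omega
    | inr a =>
      rw [Split_l]
      simp
      omega

private theorem Split_cnt {β γ : Type} (w : List (β ⊕ γ)) :
    (w.map Sum.isLeft).countP id = (w.filterMap Sum.getLeft?).length := by
  induction w with
  | nil => rfl
  | cons a w ih =>
    cases a with
    | inl a => simp_all
    | inr a =>
      rw [Split_l]
      simp_all

private theorem Split_count {α : Type} {t : ℕ} (f : Fin t → α) (p : α → Bool) :
    (List.ofFn f).countP p = (Finset.univ.filter fun i => p (f i) = true).card := by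
  have h : ((List.ofFn f : List α) : Multiset α) = (Finset.univ : Finset (Fin t)).val.map f :=
    (Fin.univ_val_map f).symm
  have h1 : Multiset.countP (fun a => p a = true) ((List.ofFn f : List α) : Multiset α) =
      (List.ofFn f).countP p := by
    rw [Multiset.coe_countP]
    congr 1
    funext a
    simp
  rw [← h1, h, Multiset.countP_map]
  rfl

private theorem Split_pat_fin (t j : ℕ) :
    {p : List Bool | p.length = t ∧ p.countP id = j}.Finite :=
  (W_fin Bool t).subset fun _ h => h.1

private theorem Split_pat_card (t j : ℕ) :
    {p : List Bool | p.length = t ∧ p.countP id = j}.ncard ≤ t.choose j := by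
  classical
  have hsub : {p : List Bool | p.length = t ∧ p.countP id = j} ⊆
      (fun S : Finset (Fin t) => List.ofFn fun i => decide (i ∈ S)) ''
        ((Finset.powersetCard j (Finset.univ : Finset (Fin t)) : Finset (Finset (Fin t))) :
          Set (Finset (Fin t))) := by
    rintro p ⟨hlen, hj⟩
    subst hlen
    refine ⟨Finset.univ.filter fun i => p.get i = true, ?_, ?_⟩
    · rw [Finset.mem_coe, Finset.mem_powersetCard]
      refine ⟨Finset.subset_univ _, ?_⟩
      have h1 := Split_count p.get id
      rw [List.ofFn_get, hj] at h1
      exact h1.symm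
    · have h2 : (fun i : Fin p.length =>
          decide (i ∈ Finset.univ.filter fun i => p.get i = true)) = p.get := by
        funext i
        simp
      exact (congrArg List.ofFn h2).trans (List.ofFn_get p)
  refine (Set.ncard_le_ncard hsub ((Finset.finite_toSet _).image _)).trans
    ((Set.ncard_image_le (Finset.finite_toSet _)).trans ?_)
  rw [Set.ncard_coe_finset, Finset.card_powersetCard, Finset.card_univ, Fintype.card_fin]

private def Split_F (g e : ℕ) (q : List Bool × (List (Fin g) × List (Fin e))) :
    List (Fin (g + e)) :=
  (Split_mrg q.1 q.2.1 q.2.2).map finSumFinEquiv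

theorem Pm_split {g e : ℕ} (a : List (Fin (g + e))) (t : ℕ) :
    ∃ j, j ≤ t ∧ ∃ (a1 : List (Fin g)) (a2 : List (Fin e)),
      (Pm a t).ncard ≤ t.choose j * ((Pm a1 j).ncard * (Pm a2 (t - j)).ncard) := by
  classical
  by_cases hat : (a.take t).length = t
  · obtain ⟨w, hw⟩ : ∃ w, w = (a.take t).map finSumFinEquiv.symm := ⟨_, rfl⟩
    have hwl : w.length = t := by rw [hw, List.length_map, hat]
    have h1 := Split_len w
    obtain ⟨j, hj⟩ : ∃ j, j = (w.filterMap Sum.getLeft?).length := ⟨_, rfl⟩
    refine ⟨j, by omega, w.filterMap Sum.getLeft?, w.filterMap Sum.getRight?, ?_⟩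
    obtain ⟨P, hP⟩ : ∃ P : Set (List Bool),
        P = {p : List Bool | p.length = t ∧ p.countP id = j} := ⟨_, rfl⟩
    have hPf : P.Finite := by rw [hP]; exact Split_pat_fin t j
    have hPc : P.ncard ≤ t.choose j := by rw [hP]; exact Split_pat_card t j
    have hfin : (P ×ˢ (Pm (w.filterMap Sum.getLeft?) j ×ˢ
        Pm (w.filterMap Sum.getRight?) (t - j))).Finite :=
      hPf.prod ((Pm_fin _ _).prod (Pm_fin _ _))
    have hsub : Pm a t ⊆ Split_F g e '' (P ×ˢ (Pm (w.filterMap Sum.getLeft?) j ×ˢ
        Pm (w.filterMap Sum.getRight?) (t - j))) := by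
      rintro y ⟨hy1, hy2⟩
      obtain ⟨x, hx⟩ : ∃ x, x = y.map finSumFinEquiv.symm := ⟨_, rfl⟩
      have hp : w.Perm x := by
        rw [hw, hx]
        exact List.Perm.map _ hy2
      have hxl : x.length = t := by rw [hx, List.length_map, hy1]
      have hu : (w.filterMap Sum.getLeft?).Perm (x.filterMap Sum.getLeft?) := hp.filterMap _
      have hv : (w.filterMap Sum.getRight?).Perm (x.filterMap Sum.getRight?) := hp.filterMap _
      have hul := hu.length_eq
      have hvl := hv.length_eq
      have h2 := Split_len x
      refine ⟨(x.map Sum.isLeft, (x.filterMap Sum.getLeft?, x.filterMap Sum.getRight?)), ?_, ?_⟩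
      · rw [hP]
        refine ⟨⟨?_, ?_⟩, ⟨?_, ?_⟩, ?_, ?_⟩
        · show (x.map Sum.isLeft).length = t
          rw [List.length_map, hxl]
        · exact (Split_cnt x).trans (by omega)
        · show (x.filterMap Sum.getLeft?).length = j
          omega
        · show ((w.filterMap Sum.getLeft?).take j).Perm (x.filterMap Sum.getLeft?)
          rw [hj, List.take_length]
          exact hu
        · show (x.filterMap Sum.getRight?).length = t - j
          omega
        · show ((w.filterMap Sum.getRight?).take (t - j)).Perm (x.filterMap Sum.getRight?)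
          rw [List.take_of_length_le (by omega)]
          exact hv
      · show (Split_mrg (x.map Sum.isLeft) (x.filterMap Sum.getLeft?)
          (x.filterMap Sum.getRight?)).map finSumFinEquiv = y
        rw [Split_mrg_eq, hx, List.map_map]
        simp
    calc (Pm a t).ncard ≤ (Split_F g e '' (P ×ˢ (Pm (w.filterMap Sum.getLeft?) j ×ˢ
          Pm (w.filterMap Sum.getRight?) (t - j)))).ncard :=
          Set.ncard_le_ncard hsub (hfin.image _)
      _ ≤ (P ×ˢ (Pm (w.filterMap Sum.getLeft?) j ×ˢ
          Pm (w.filterMap Sum.getRight?) (t - j))).ncard := Set.ncard_image_le hfin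
      _ = P.ncard * ((Pm (w.filterMap Sum.getLeft?) j).ncard *
          (Pm (w.filterMap Sum.getRight?) (t - j)).ncard) := by
          rw [Set.ncard_prod, Set.ncard_prod]
      _ ≤ _ := Nat.mul_le_mul_right _ hPc
  · refine ⟨0, Nat.zero_le _, [], [], ?_⟩
    have h0 : Pm a t = ∅ := by
      apply Set.eq_empty_of_forall_notMem
      rintro y ⟨hy1, hy2⟩
      exact hat (hy2.length_eq.trans hy1)
    rw [h0, Set.ncard_empty]
    exact Nat.zero_le _

end Pool.Agent.ST
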