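import Pool.Agent.H.MP_53e59f_lc.ST.Two
import Pool.Agent.H.MP_53e59f_lc.ST.Split

/-!
# Four letters

`Pm_split` with `g = e = 2`, `Pm_two`: `(Pm a t).ncard ^ 2 ≤ (t.choose j)^2 * 4^j * 4^(t-j) / ((j + 1) (t - j + 1))`. Now
`t.choose j * (t + 1) * (t + 2) = (t + 2).choose (j + 1) * (j + 1) * (t - j + 1)`, so
`((t.choose j)^2)^2 * ((t + 1) (t + 2))^2 = (t.choose j)^2 * ((t + 2).choose (j + 1))^2 * ((j + 1) (t - j + 1))^2` and by `choose_le` (for `t` and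
`t + 2`) `(t.choose j)^2 ≤ 4^t / (t + 1)`, `((t + 2).choose (j + 1))^2 ≤ 16 * 4^t / (t + 3)`: the square root of the product gives
`(t.choose j)^2 / ((j + 1) (t - j + 1)) ≤ 4 * 4^t / ((t + 1) (t + 2) * sqrt ((t + 1) (t + 3))) ≤ 4 * 4^t / t^3`. (It is easiest to prove the squared
inequality and then take the root, `Nat.pow_le_pow_left` backwards / `pow_le_pow_left₀`, `abs_le_of_sq_le_sq`.)
-/

namespace Pool.Agent.ST

open Pool.Agent.SN

theorem choose_mix {t j : ℕ} (hj : j ≤ t) :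
    (t.choose j) ^ 2 * t ^ 3 ≤ 4 * 4 ^ t * ((j + 1) * (t - j + 1)) := by
  have hid : t.choose j * ((t + 1) * (t + 2)) = (t + 2).choose (j + 1) * ((j + 1) * (t - j + 1)) := by
    have e1 : (t + 1) * t.choose j = (t + 1).choose (j + 1) * (j + 1) := Nat.add_one_mul_choose_eq t j
    have e2 : (t + 1).choose (j + 1) * (t + 1 + 1) = (t + 1 + 1).choose (j + 1) * (t + 1 + 1 - (j + 1)) :=
      Nat.choose_mul_succ_eq (t + 1) (j + 1)
    have e3 : t + 1 + 1 - (j + 1) = t - j + 1 := by omega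
    rw [e3] at e2
    calc t.choose j * ((t + 1) * (t + 2)) = ((t + 1) * t.choose j) * (t + 2) := by ring
      _ = ((t + 1).choose (j + 1) * (t + 1 + 1)) * (j + 1) := by rw [e1]; ring
      _ = (t + 2).choose (j + 1) * ((j + 1) * (t - j + 1)) := by rw [e2]; ring
  have h1 : (t.choose j) ^ 2 * (t + 1) ≤ 4 ^ t := choose_le t j
  have h2 : ((t + 2).choose (j + 1)) ^ 2 * (t + 3) ≤ 16 * 4 ^ t := by
    have h := choose_le (t + 2) (j + 1)
    calc ((t + 2).choose (j + 1)) ^ 2 * (t + 3) ≤ 4 ^ (t + 2) := h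
      _ = 16 * 4 ^ t := by rw [pow_add]; ring
  generalize (t + 2).choose (j + 1) = b at hid h2
  generalize t.choose j = c at hid h1 ⊢
  generalize (j + 1) * (t - j + 1) = q at hid ⊢
  generalize (4 : ℕ) ^ t = P at h1 h2 ⊢
  have h3 : (c ^ 2 * t ^ 3) ^ 2 ≤ (4 * P * q) ^ 2 := by
    calc (c ^ 2 * t ^ 3) ^ 2 = (c ^ 2) ^ 2 * (t * t * (t * t) * (t * t)) := by ring
      _ ≤ (c ^ 2) ^ 2 * ((t + 1) * (t + 1) * ((t + 2) * (t + 2)) * ((t + 1) * (t + 3))) := by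
          gcongr <;> omega
      _ = (c ^ 2 * (t + 1)) * ((c * ((t + 1) * (t + 2))) ^ 2 * (t + 3)) := by ring
      _ = (c ^ 2 * (t + 1)) * ((b ^ 2 * (t + 3)) * q ^ 2) := by rw [hid]; ring
      _ ≤ P * ((16 * P) * q ^ 2) := by gcongr
      _ = (4 * P * q) ^ 2 := by ring
  exact le_of_not_gt fun hlt => absurd h3 (not_le_of_gt (Nat.pow_lt_pow_left hlt (by norm_num)))

theorem Pm_four (a : List (Fin 4)) (t : ℕ) :
    (Pm a t).ncard ^ 2 * t ^ 3 ≤ 4 * (4 ^ t) ^ 2 := by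
  obtain ⟨j, hj, a1, a2, hle⟩ := Pm_split (g := 2) (e := 2) a t
  have h1 := Pm_two a1 j
  have h2 := Pm_two a2 (t - j)
  have h3 := choose_mix hj
  have h4 : 4 ^ j * 4 ^ (t - j) = 4 ^ t := by
    rw [← pow_add]; congr 1; omega
  generalize (Pm a1 j).ncard = n1 at hle h1
  generalize (Pm a2 (t - j)).ncard = n2 at hle h2
  generalize t.choose j = c at hle h3
  generalize (Pm a t).ncard = n at hle ⊢
  have hq : 0 < (j + 1) * (t - j + 1) := by positivity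
  refine Nat.le_of_mul_le_mul_right ?_ hq
  calc n ^ 2 * t ^ 3 * ((j + 1) * (t - j + 1))
      ≤ (c * (n1 * n2)) ^ 2 * t ^ 3 * ((j + 1) * (t - j + 1)) := by gcongr
    _ = (n1 ^ 2 * (j + 1)) * (n2 ^ 2 * (t - j + 1)) * (c ^ 2 * t ^ 3) := by ring
    _ ≤ 4 ^ j * 4 ^ (t - j) * (4 * 4 ^ t * ((j + 1) * (t - j + 1))) := by gcongr
    _ = 4 * (4 ^ t) ^ 2 * ((j + 1) * (t - j + 1)) := by rw [h4]; ring

end Pool.Agent.ST
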