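import Pool.Agent.H.MP_53e59f_lc.ST.Defs

/-!
# Groups of letters

As SQ/Mul.lean: `Fin (4 * r) ≃ Fin 4 × Fin r` (`finProdFinEquiv.symm`); `y` is determined by the word of its first components, which is in
`Pm a1 t` with `a1` = the word of the first components of `a`, and the word of the second components.
-/

namespace Pool.Agent.ST

open Pool.Agent.SN

private theorem Mul_inj {α β γ : Type} (g : α → β) (h1 : α → γ)
    (hinj : ∀ x y, g x = g y → h1 x = h1 y → x = y) :
    ∀ z z' : List α, z.map g = z'.map g → z.map h1 = z'.map h1 → z = z' := by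
  intro z
  induction z with
  | nil =>
    intro z' h _
    cases z' with
    | nil => rfl
    | cons y z' => simp at h
  | cons x z ih =>
    intro z' h a
    cases z' with
    | nil => simp at h
    | cons y z' =>
      simp only [List.map_cons, List.cons.injEq] at h a
      rw [hinj x y h.1 a.1, ih z' h.2 a.2]

theorem Pm_mul {r : ℕ} (a : List (Fin (4 * r))) (t : ℕ) :
    ∃ a1 : List (Fin 4), (Pm a t).ncard ≤ (Pm a1 t).ncard * r ^ t := by
  obtain ⟨e, -⟩ : ∃ e : Fin (4 * r) ≃ Fin 4 × Fin r, e = finProdFinEquiv.symm := ⟨_, rfl⟩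
  refine ⟨a.map fun x => (e x).1, ?_⟩
  have h1 : (Pm a t).ncard ≤ (Pm (a.map fun x => (e x).1) t ×ˢ W (Fin r) t).ncard := by
    refine Set.ncard_le_ncard_of_injOn
      (fun y : List (Fin (4 * r)) => (y.map (fun x => (e x).1), y.map (fun x => (e x).2))) ?_ ?_
      ((Pm_fin _ t).prod (W_fin (Fin r) t))
    · rintro y ⟨hy1, hy2⟩
      refine ⟨⟨?_, ?_⟩, ?_⟩
      · show (y.map (fun x => (e x).1)).length = t
        rw [List.length_map, hy1]
      · show ((a.map (fun x => (e x).1)).take t).Perm (y.map (fun x => (e x).1))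
        rw [← List.map_take]
        exact hy2.map _
      · show (y.map (fun x => (e x).2)).length = t
        rw [List.length_map, hy1]
    · intro y _ y' _ h
      simp only [Prod.mk.injEq] at h
      refine Mul_inj _ _ ?_ y y' h.1 h.2
      intro x z h3 h4
      exact e.injective (Prod.ext h3 h4)
  rw [Set.ncard_prod, W_card, Nat.card_eq_fintype_card, Fintype.card_fin] at h1
  exact h1

end Pool.Agent.ST
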