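import Pool.Agent.H.MP_53e59f_lc.ST.Four
import Pool.Agent.H.MP_53e59f_lc.ST.Mul

/-!
# At least four letters

`s = g + e`, `g = 4 r = 4 * (s / 4)`, `e = s % 4`, `x = g / s ≥ 4 / 7`. `Pm_split`, `Pm a2 (t - j)` has at most `e ^ (t - j)` elements (`W_card`), `Pm_mul`, `Pm_four`:
`(Pm a1 j).ncard ^ 2 * j ^ 3 ≤ 4 * (g ^ j) ^ 2` (and `(Pm a1 j).ncard ≤ g ^ j`). With `q = t.choose j * g ^ j * e ^ (t - j) / s ^ t ≤ 1` (binomial theorem):
`((Pm a t).ncard / s ^ t) ^ 2 ≤ q ^ 2 * 32 / (j + 1) ^ 3 ≤ 32 * q / (j + 1) ^ 3 ≤ 192 * q / ((j + 1) (j + 2) (j + 3))` and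
`t.choose j * (t + 1) (t + 2) (t + 3) = (t + 3).choose (j + 3) * (j + 1) (j + 2) (j + 3)`, so `q / ((j + 1) (j + 2) (j + 3)) = q' / (x ^ 3 (t + 1) (t + 2) (t + 3)) ≤ 1 / (x ^ 3 * t ^ 3)`
with `q' = (t + 3).choose (j + 3) * g ^ (j + 3) * e ^ (t - j) / s ^ (t + 3) ≤ 1`. So `D = 192 * (7 / 4) ^ 3 ≤ 1029`.
-/

namespace Pool.Agent.ST

open Pool.Agent.SN

private theorem Gen_card {s : ℕ} (a : List (Fin s)) (t : ℕ) : (Pm a t).ncard ≤ s ^ t := by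
  have h := Set.ncard_le_ncard (s := Pm a t) (t := W (Fin s) t) (fun _ h => h.1)
    (W_fin (Fin s) t)
  rw [W_card] at h
  simpa using h

private theorem Gen_binom (g e t j : ℕ) (hj : j ≤ t) :
    t.choose j * g ^ j * e ^ (t - j) ≤ (g + e) ^ t := by
  rw [add_pow]
  have h := Finset.single_le_sum (f := fun m => g ^ m * e ^ (t - m) * (t.choose m))
    (s := Finset.range (t + 1)) (fun _ _ => Nat.zero_le _)
    (Finset.mem_range.2 (Nat.lt_succ_of_le hj))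
  calc t.choose j * g ^ j * e ^ (t - j) = g ^ j * e ^ (t - j) * t.choose j := by ring
    _ ≤ _ := by simpa using h

private theorem Gen_choose (t j : ℕ) :
    t.choose j * ((t + 1) * (t + 2) * (t + 3)) =
      (t + 3).choose (j + 3) * ((j + 1) * (j + 2) * (j + 3)) := by
  have h1 : (t + 1) * t.choose j = (t + 1).choose (j + 1) * (j + 1) :=
    Nat.add_one_mul_choose_eq t j
  have h2 : (t + 2) * (t + 1).choose (j + 1) = (t + 2).choose (j + 2) * (j + 2) :=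
    Nat.add_one_mul_choose_eq (t + 1) (j + 1)
  have h3 : (t + 3) * (t + 2).choose (j + 2) = (t + 3).choose (j + 3) * (j + 3) :=
    Nat.add_one_mul_choose_eq (t + 2) (j + 2)
  calc t.choose j * ((t + 1) * (t + 2) * (t + 3))
      = ((t + 1) * t.choose j) * ((t + 2) * (t + 3)) := by ring
    _ = ((t + 2) * (t + 1).choose (j + 1)) * ((j + 1) * (t + 3)) := by rw [h1]; ring
    _ = ((t + 3) * (t + 2).choose (j + 2)) * ((j + 1) * (j + 2)) := by rw [h2]; ring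
    _ = _ := by rw [h3]; ring

private theorem Gen_arith {P C C' P1 P2 G E S K T g s t : ℕ} (hK : 0 < K) (hs : 0 < s)
    (hP : P ≤ C * (P1 * P2)) (hP2 : P2 ≤ E) (hP1 : P1 ^ 2 * K ≤ 192 * G ^ 2)
    (hQ : C * G * E ≤ S) (hch : C * T = C' * K) (hQ' : C' * (G * g ^ 3) * E ≤ S * s ^ 3)
    (hT : t ^ 3 ≤ T) (hg : 64 * s ^ 3 ≤ 343 * g ^ 3) : P ^ 2 * t ^ 3 ≤ 1029 * S ^ 2 := by
  have h1 : P ≤ C * (P1 * E) := hP.trans (Nat.mul_le_mul_left _ (Nat.mul_le_mul_left _ hP2))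
  have h2 : P ^ 2 * K ≤ 192 * S * (C * G * E) := by
    calc P ^ 2 * K ≤ (C * (P1 * E)) ^ 2 * K :=
          Nat.mul_le_mul_right _ (Nat.pow_le_pow_left h1 2)
      _ = (C * E) ^ 2 * (P1 ^ 2 * K) := by ring
      _ ≤ (C * E) ^ 2 * (192 * G ^ 2) := Nat.mul_le_mul_left _ hP1
      _ = 192 * (C * G * E) * (C * G * E) := by ring
      _ ≤ 192 * S * (C * G * E) := Nat.mul_le_mul_right _ (Nat.mul_le_mul_left _ hQ)
  have h3 : (P ^ 2 * T * g ^ 3) * K ≤ (192 * S * (S * s ^ 3)) * K := by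
    calc (P ^ 2 * T * g ^ 3) * K = (P ^ 2 * K) * (T * g ^ 3) := by ring
      _ ≤ (192 * S * (C * G * E)) * (T * g ^ 3) := Nat.mul_le_mul_right _ h2
      _ = 192 * S * ((C * T) * G * g ^ 3 * E) := by ring
      _ = 192 * S * (C' * (G * g ^ 3) * E) * K := by rw [hch]; ring
      _ ≤ 192 * S * (S * s ^ 3) * K :=
          Nat.mul_le_mul_right _ (Nat.mul_le_mul_left _ hQ')
  have h4 : P ^ 2 * T * g ^ 3 ≤ 192 * S * (S * s ^ 3) := Nat.le_of_mul_le_mul_right h3 hK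
  have h5 : (P ^ 2 * t ^ 3) * (64 * s ^ 3) ≤ (1029 * S ^ 2) * (64 * s ^ 3) := by
    calc (P ^ 2 * t ^ 3) * (64 * s ^ 3) ≤ (P ^ 2 * T) * (343 * g ^ 3) :=
          Nat.mul_le_mul (Nat.mul_le_mul_left _ hT) hg
      _ = 343 * (P ^ 2 * T * g ^ 3) := by ring
      _ ≤ 343 * (192 * S * (S * s ^ 3)) := Nat.mul_le_mul_left _ h4
      _ = (1029 * S ^ 2) * (64 * s ^ 3) := by ring
  exact Nat.le_of_mul_le_mul_right h5 (by positivity)

theorem Pm_gen {s : ℕ} (hs : 4 ≤ s) (a : List (Fin s)) (t : ℕ) :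
    (Pm a t).ncard ^ 2 * t ^ 3 ≤ 1029 * (s ^ t) ^ 2 := by
  obtain ⟨r, e, he, hr, rfl⟩ : ∃ r e, e ≤ 3 ∧ 1 ≤ r ∧ s = 4 * r + e :=
    ⟨s / 4, s % 4, by omega, by omega, by omega⟩
  obtain ⟨j, hj, a1, a2, hsp⟩ := Pm_split a t
  obtain ⟨b, hb⟩ := Pm_mul a1 j
  have hb4 := Pm_four b j
  have hbc := Gen_card b j
  have hP1 : (Pm a1 j).ncard ^ 2 * ((j + 1) * (j + 2) * (j + 3)) ≤ 192 * ((4 * r) ^ j) ^ 2 := by
    have h6 : (Pm b j).ncard ^ 2 * (j + 1) ^ 3 ≤ 32 * (4 ^ j) ^ 2 := by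
      rcases Nat.eq_zero_or_pos j with rfl | hj0
      · simp only [pow_zero] at hbc ⊢
        have : (Pm b 0).ncard ^ 2 ≤ 1 ^ 2 := Nat.pow_le_pow_left hbc 2
        omega
      · have h7 : (j + 1) ^ 3 ≤ 8 * j ^ 3 := by
          calc (j + 1) ^ 3 ≤ (2 * j) ^ 3 := Nat.pow_le_pow_left (by omega) 3
            _ = 8 * j ^ 3 := by ring
        calc (Pm b j).ncard ^ 2 * (j + 1) ^ 3 ≤ (Pm b j).ncard ^ 2 * (8 * j ^ 3) :=
              Nat.mul_le_mul_left _ h7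
          _ = 8 * ((Pm b j).ncard ^ 2 * j ^ 3) := by ring
          _ ≤ 8 * (4 * (4 ^ j) ^ 2) := Nat.mul_le_mul_left _ hb4
          _ = 32 * (4 ^ j) ^ 2 := by ring
    have h8 : (j + 1) * (j + 2) * (j + 3) ≤ 6 * (j + 1) ^ 3 := by
      calc (j + 1) * (j + 2) * (j + 3) ≤ (j + 1) * (2 * (j + 1)) * (3 * (j + 1)) :=
            Nat.mul_le_mul (Nat.mul_le_mul_left _ (by omega)) (by omega)
        _ = 6 * (j + 1) ^ 3 := by ring
    calc (Pm a1 j).ncard ^ 2 * ((j + 1) * (j + 2) * (j + 3))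
        ≤ ((Pm b j).ncard * r ^ j) ^ 2 * (6 * (j + 1) ^ 3) :=
          Nat.mul_le_mul (Nat.pow_le_pow_left hb 2) h8
      _ = 6 * (r ^ j) ^ 2 * ((Pm b j).ncard ^ 2 * (j + 1) ^ 3) := by ring
      _ ≤ 6 * (r ^ j) ^ 2 * (32 * (4 ^ j) ^ 2) := Nat.mul_le_mul_left _ h6
      _ = 192 * ((4 * r) ^ j) ^ 2 := by rw [mul_pow]; ring
  refine Gen_arith (K := (j + 1) * (j + 2) * (j + 3)) (T := (t + 1) * (t + 2) * (t + 3))
    (E := e ^ (t - j)) (g := 4 * r) (s := 4 * r + e) (C' := (t + 3).choose (j + 3))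
    (by positivity) (by omega) hsp (Gen_card a2 (t - j)) hP1 (Gen_binom (4 * r) e t j hj)
    (Gen_choose t j) ?_ ?_ ?_
  · have h := Gen_binom (4 * r) e (t + 3) (j + 3) (by omega)
    rw [show t + 3 - (j + 3) = t - j by omega, pow_add, pow_add] at h
    exact h
  · calc t ^ 3 = t * t * t := by ring
      _ ≤ (t + 1) * (t + 2) * (t + 3) :=
          Nat.mul_le_mul (Nat.mul_le_mul (by omega) (by omega)) (by omega)
  · have h : 4 * (4 * r + e) ≤ 7 * (4 * r) := by omega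
    calc 64 * (4 * r + e) ^ 3 = (4 * (4 * r + e)) ^ 3 := by ring
      _ ≤ (7 * (4 * r)) ^ 3 := Nat.pow_le_pow_left h 3
      _ = 343 * (4 * r) ^ 3 := by ring

end Pool.Agent.ST
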