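import Pool.Agent.H.MP_53e59f_lc.ST.Few
import Pool.Agent.H.MP_53e59f_lc.SN.Enc
import Pool.Agent.H.MP_53e59f_lc.SP.Fin

/-!
# The theorem: u arbitrary, v random
-/

namespace Pool.Agent.ST

open Pool.Agent.SF Pool.Agent.SM Pool.Agent.SN

theorem main (c : ℕ) :
    ∃ f g : Inst → Bool,
      Nonempty (Turing.TM2ComputableInPolyTime Inst.encode Computability.encodeBool f) ∧
      Nonempty (Turing.TM2ComputableInPolyTime Inst.encode Computability.encodeBool g) ∧
      (∀ x : Inst, g x = true → (f x = true ↔ x.M.accepts ≠ {w | Sh x.u x.v w})) ∧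
      (∀ x : Inst, Sparse (c * Nat.log 2 x.encode.length) x.u x.v → g x = true) ∧
      ∀ (s m : ℕ) (u : List (Fin s)), 4 ≤ s →
        {v : List (Fin s) | v.length = m ∧
          ∃ (q : ℕ) (M : DFA (Fin s) (Fin q)), g ⟨s, q, M, u, v⟩ = false}.ncard *
          (u.length + m + 1) ^ c ≤ s ^ m := by
  obtain ⟨A, hA⟩ := few
  obtain ⟨f, g, h1, h1', h2, h2'⟩ := SP.final (A * (c + 2) + c)
  refine ⟨f, g, h1, h1', h2, ?_, ?_⟩
  · intro x hx
    refine h2' x ?_
    intro i j hi hj
    exact le_trans (hx i j hi hj) (Nat.mul_le_mul_right _ (Nat.le_add_left _ _))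
  intro s m u hs
  have h9 := hA s hs u m c
  refine le_trans (Nat.mul_le_mul_right _ ?_) h9
  refine Set.ncard_le_ncard ?_ (BadU_fin u m _)
  rintro v ⟨hv, q, M, h3⟩
  refine ⟨hv, ?_⟩
  by_contra hcon
  push Not at hcon
  have h4 : g ⟨s, q, M, u, v⟩ = true := by
    refine h2' ⟨s, q, M, u, v⟩ ?_
    intro i j _ _
    have h4 := hcon i j
    have h5 := enc_le ⟨s, q, M, u, v⟩
    have h6 : Nat.log 2 (2 * (u.length + m) + 2) ≤
        Nat.log 2 (Inst.encode ⟨s, q, M, u, v⟩).length := by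
      refine Nat.log_mono_right ?_
      rw [← hv]
      exact h5
    have h7 : A * ((c + 2) * Nat.log 2 (2 * (u.length + m) + 2)) ≤
        (A * (c + 2) + c) * Nat.log 2 (Inst.encode ⟨s, q, M, u, v⟩).length := by
      rw [← mul_assoc]
      exact Nat.mul_le_mul (Nat.le_add_right _ _) h6
    show (Same u v i j).ncard ≤ _
    have h8 : (Same u v i j).ncard <
      A * ((c + 2) * Nat.log 2 (2 * (u.length + m) + 2)) + 1 := h4
    omega
  rw [h4] at h3
  exact Bool.noConfusion h3

end Pool.Agent.ST
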