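import Pool.Agent.H.MP_53e59f_lc.ST.Gen

/-!
# The expected number of returns

`Pm_gen` gives `(Pm a t).ncard / s ^ t ≤ 33 / (√t * t)` for `t ≥ 1`, and `∑ 1 / (√t * t)` converges (see SQ/Bdd.lean for the same argument).
-/

namespace Pool.Agent.ST

open Pool.Agent.SN

private theorem Sum_term {s : ℕ} (hs : 4 ≤ s) (a : List (Fin s)) {t : ℕ} (ht : 1 ≤ t) :
    ((Pm a t).ncard : ℝ) ≤ 33 * (1 / (t : ℝ) ^ (3 / 2 : ℝ)) * (s : ℝ) ^ t := by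
  have h := Pm_gen hs a t
  have h' : ((Pm a t).ncard : ℝ) ^ 2 * (t : ℝ) ^ 3 ≤ 1029 * ((s : ℝ) ^ t) ^ 2 := by
    exact_mod_cast h
  have ht0 : (0 : ℝ) < t := by exact_mod_cast ht
  obtain ⟨w, hw⟩ : ∃ w, w = (t : ℝ) ^ (3 / 2 : ℝ) := ⟨_, rfl⟩
  have hw0 : 0 < w := by
    rw [hw]
    positivity
  have hw2 : w ^ 2 = (t : ℝ) ^ 3 := by
    rw [hw, ← Real.rpow_natCast, ← Real.rpow_mul ht0.le, ← Real.rpow_natCast]
    norm_num
  rw [← hw2] at h'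
  rw [← hw]
  have h1 : ((Pm a t).ncard : ℝ) * w ≤ 33 * (s : ℝ) ^ t := by
    refine (pow_le_pow_iff_left₀ (by positivity) (by positivity) two_ne_zero).1 ?_
    nlinarith [sq_nonneg ((s : ℝ) ^ t)]
  have h2 : 33 * (1 / w) * (s : ℝ) ^ t = 33 * (s : ℝ) ^ t / w := by ring
  rw [h2, le_div_iff₀ hw0]
  exact h1

theorem Pm_sum : ∃ B : ℕ, ∀ s : ℕ, 4 ≤ s → ∀ (a : List (Fin s)) (L : ℕ),
    ∑ t ∈ Finset.Icc 1 L, (Pm a t).ncard * s ^ (L - t) ≤ B * s ^ L := by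
  have hsum : Summable fun n : ℕ => 1 / (n : ℝ) ^ (3 / 2 : ℝ) :=
    Real.summable_one_div_nat_rpow.2 (by norm_num)
  refine ⟨⌈33 * ∑' n : ℕ, 1 / (n : ℝ) ^ (3 / 2 : ℝ)⌉₊, fun s hs a L => ?_⟩
  have hreal : ((∑ t ∈ Finset.Icc 1 L, (Pm a t).ncard * s ^ (L - t) : ℕ) : ℝ) ≤
      (⌈33 * ∑' n : ℕ, 1 / (n : ℝ) ^ (3 / 2 : ℝ)⌉₊ : ℝ) * (s : ℝ) ^ L := by
    push_cast
    calc ∑ t ∈ Finset.Icc 1 L, ((Pm a t).ncard : ℝ) * (s : ℝ) ^ (L - t)
        ≤ ∑ t ∈ Finset.Icc 1 L, (33 * (1 / (t : ℝ) ^ (3 / 2 : ℝ))) * (s : ℝ) ^ L := by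
          refine Finset.sum_le_sum fun t ht => ?_
          rw [Finset.mem_Icc] at ht
          have h1 := Sum_term hs a ht.1
          have h2 : (s : ℝ) ^ L = (s : ℝ) ^ t * (s : ℝ) ^ (L - t) := by
            rw [← pow_add]
            congr 1
            omega
          rw [h2, ← mul_assoc]
          exact mul_le_mul_of_nonneg_right h1 (by positivity)
      _ = (33 * ∑ t ∈ Finset.Icc 1 L, 1 / (t : ℝ) ^ (3 / 2 : ℝ)) * (s : ℝ) ^ L := by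
          rw [← Finset.sum_mul, ← Finset.mul_sum]
      _ ≤ _ := by
          apply mul_le_mul_of_nonneg_right _ (by positivity)
          exact (mul_le_mul_of_nonneg_left (hsum.sum_le_tsum _ fun n _ => by positivity)
            (by norm_num)).trans (Nat.le_ceil _)
  exact_mod_cast hreal

end Pool.Agent.ST
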