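import Pool.Agent.H.MP_53e59f_lc.ST.Defs
import Pool.Agent.H.MP_53e59f_lc.SN.Bin

/-!
# Two letters

A permutation of a word of length `t` over `Fin 2` with `k` ones is determined by the set of the positions of the ones:
`(Pm a t).ncard ≤ t.choose k` (0 if `a` has less than `t` letters). And `(t.choose k)^2 * (t + 1) ≤ 4 ^ t`: `t.choose k ≤ t.choose (t / 2)`, for
`t = 2 m` this is `centralBinom m`, for `t = 2 m + 1` twice it is `centralBinom (m + 1)`; then `SN.central_le`.
-/

namespace Pool.Agent.ST

open Pool.Agent.SN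

theorem choose_le (t k : ℕ) : (t.choose k) ^ 2 * (t + 1) ≤ 4 ^ t := by
  have h1 : t.choose k ≤ t.choose (t / 2) := Nat.choose_le_middle k t
  have h2 : (t.choose k) ^ 2 * (t + 1) ≤ (t.choose (t / 2)) ^ 2 * (t + 1) :=
    Nat.mul_le_mul_right _ (Nat.pow_le_pow_left h1 2)
  refine h2.trans ?_
  obtain ⟨m, hm⟩ := Nat.even_or_odd' t
  rcases hm with rfl | rfl
  · have h3 := central_le m
    have h5 : 2 * m / 2 = m := by omega
    rw [Nat.centralBinom_eq_two_mul_choose] at h3
    have h4 : (4 : ℕ) ^ (2 * m) = 16 ^ m := by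
      rw [pow_mul]
      norm_num
    rw [h4, h5]
    refine le_trans ?_ h3
    rw [mul_comm]
    exact Nat.mul_le_mul_right _ (by omega)
  · have h3 := central_le (m + 1)
    have h5 : (2 * m + 1) / 2 = m := by omega
    have h6 : Nat.centralBinom (m + 1) = 2 * (2 * m + 1).choose m := by
      have h7 : 2 * (m + 1) = (2 * m + 1) + 1 := by ring
      rw [Nat.centralBinom_eq_two_mul_choose, h7, Nat.choose_succ_succ, Nat.choose_symm_half]
      ring
    rw [h6] at h3
    rw [h5]
    have h4 : (4 : ℕ) ^ (2 * m + 1) = 4 * 16 ^ m := by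
      rw [pow_succ, pow_mul]
      norm_num
      ring
    rw [h4]
    generalize (2 * m + 1).choose m = c at *
    have h8 : (16 : ℕ) ^ (m + 1) = 16 * 16 ^ m := by ring
    rw [h8] at h3
    nlinarith [Nat.zero_le (m * c ^ 2), Nat.zero_le (c ^ 2)]

private theorem Two_count {α : Type} {t : ℕ} (f : Fin t → α) (p : α → Bool) :
    (List.ofFn f).countP p = (Finset.univ.filter fun i => p (f i) = true).card := by
  have h : ((List.ofFn f : List α) : Multiset α) = (Finset.univ : Finset (Fin t)).val.map f :=
    (Fin.univ_val_map f).symm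
  have h1 : Multiset.countP (fun a => p a = true) ((List.ofFn f : List α) : Multiset α) =
      (List.ofFn f).countP p := by
    rw [Multiset.coe_countP]
    congr 1
    funext a
    simp
  rw [← h1, h, Multiset.countP_map]
  rfl

theorem Pm_two (a : List (Fin 2)) (t : ℕ) : (Pm a t).ncard ^ 2 * (t + 1) ≤ 4 ^ t := by
  classical
  obtain ⟨k, hk⟩ : ∃ k, (a.take t).countP (fun x => decide (x = 1)) = k := ⟨_, rfl⟩
  have hsub : Pm a t ⊆ (fun S : Finset (Fin t) => List.ofFn fun i => if i ∈ S then (1 : Fin 2) else 0) ''
        ((Finset.powersetCard k (Finset.univ : Finset (Fin t)) : Finset (Finset (Fin t))) :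
          Set (Finset (Fin t))) := by
    rintro y ⟨hlen, hperm⟩
    have hy : y.countP (fun x => decide (x = 1)) = k := by rw [← hperm.countP_eq, hk]
    clear hperm hk
    subst hlen
    refine ⟨Finset.univ.filter fun i => y.get i = 1, ?_, ?_⟩
    · rw [Finset.mem_coe, Finset.mem_powersetCard]
      refine ⟨Finset.subset_univ _, ?_⟩
      have h1 := Two_count y.get (fun x => decide (x = 1))
      rw [List.ofFn_get, hy] at h1
      rw [h1]
      congr 1
      ext i
      simp
    · have h2 : (fun i : Fin y.length =>
          if i ∈ (Finset.univ.filter fun i => y.get i = 1) then (1 : Fin 2) else 0) = y.get := by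
        funext i
        by_cases h : y.get i = 1
        · rw [if_pos (Finset.mem_filter.2 ⟨Finset.mem_univ i, h⟩), h]
        · have h5 : i ∉ Finset.univ.filter fun i => y.get i = 1 := fun h6 =>
            h (Finset.mem_filter.1 h6).2
          have h7 : ∀ c : Fin 2, c ≠ 1 → 0 = c := by decide
          rw [if_neg h5]
          exact h7 _ h
      exact (congrArg List.ofFn h2).trans (List.ofFn_get y)
  have h3 : (Pm a t).ncard ≤ t.choose k := by
    refine (Set.ncard_le_ncard hsub ((Finset.finite_toSet _).image _)).trans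
      ((Set.ncard_image_le (Finset.finite_toSet _)).trans ?_)
    rw [Set.ncard_coe_finset, Finset.card_powersetCard, Finset.card_univ, Fintype.card_fin]
  exact (Nat.mul_le_mul_right _ (Nat.pow_le_pow_left h3 2)).trans (choose_le t k)

end Pool.Agent.ST
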