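import Pool.Agent.H.MP_53e59f_lc.ST.Defs

/-!
# Windows for a fixed word u

`SN.exists_win` gives `K ≤ R (zw u v i0 j0)`, `zw u v i0 j0 = (u.drop i0).zip (v.take j0).reverse`; a return `t ≤ min (|u| - i0) j0` of the list of pairs is a return of
`(v.take j0).reverse` against `u.drop i0` (`List.map_fst_zip` etc. after `take`, see SN/Win.lean). Then `v ↦ ((v.take j).reverse, v.drop j)` is injective and maps the set in
`one_pos` into `Cf (u.drop i) j K ×ˢ W (m - j)`. `BadU_card`: union bound over `i ≤ |u|`, `j ≤ m` as in SN/Cov2.lean.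
-/

namespace Pool.Agent.ST

open Pool.Agent.SN Pool.Agent.SM

theorem exists_winf {s : ℕ} {u v : List (Fin s)} {i j K : ℕ} (h : K + 1 ≤ (Same u v i j).ncard) :
    ∃ i0 j0, i0 ≤ u.length ∧ j0 ≤ v.length ∧ K ≤ Rf (u.drop i0) (v.take j0).reverse := by
  obtain ⟨i0, j0, h1, h2, h3⟩ := exists_win h
  refine ⟨i0, j0, h1, h2, h3.trans ?_⟩
  unfold R Rf zw
  generalize u.drop i0 = a
  generalize (v.take j0).reverse = y
  refine Finset.card_le_card fun t ht => ?_
  simp only [Finset.mem_filter, Finset.mem_Icc] at ht ⊢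
  obtain ⟨⟨t1, t2⟩, t3⟩ := ht
  rw [List.length_zip] at t2
  have ha : t ≤ a.length := t2.trans (min_le_left _ _)
  have hy : t ≤ y.length := t2.trans (min_le_right _ _)
  refine ⟨⟨t1, hy⟩, ?_⟩
  unfold Ret at t3
  have e0 : (a.zip y).take t = (a.take t).zip (y.take t) := by
    simp only [List.zip, List.take_zipWith]
  have la : (a.take t).length = t := by rw [List.length_take]; exact min_eq_left ha
  have ly : (y.take t).length = t := by rw [List.length_take]; exact min_eq_left hy
  have e1 : ((a.zip y).take t).map Prod.fst = a.take t := by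
    rw [e0, List.map_fst_zip (by rw [la, ly])]
  have e2 : ((a.zip y).take t).map Prod.snd = y.take t := by
    rw [e0, List.map_snd_zip (by rw [la, ly])]
  rw [e1, e2] at t3
  exact t3

end Pool.Agent.ST
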